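import Pool.Agent.Lib.MP_c6a450_an.Main

/-!
Disproof of Q1 of MP_c6a450_an: already for `n = 3` there is no invariant center.
Only conditions (i) and (ii), with a map of class `C²`, are used.
-/

namespace Pool.Agent.Results.MP_c6a450_an.NoCenterTriangles

open Pool.Agent.Lib.MP_c6a450_an

theorem result :
    ¬ ∃ (U : Set (ZMod 3 → Plane)) (C : (ZMod 3 → Plane) → Plane),
      IsOpen U ∧ U ⊆ polygons 3 ∧ polygons 3 ⊆ closure U ∧ ContDiffOn ℝ 2 C U ∧
      (∀ P ∈ U, ∀ v : Plane, translate P v ∈ U → C (translate P v) = C P + v) ∧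
      (∀ t : ℝ, 0 < t → ∀ R ∈ U, Admissible t R → fMap t R ∈ U → C (fMap t R) = C R) := by
  rintro ⟨U, C, hU, hsub, hdense, hC, htr, hf⟩
  exact no_center hU hsub hdense hC htr hf

end Pool.Agent.Results.MP_c6a450_an.NoCenterTriangles
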